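import Mathlib
import Pool.Agent.Helper63.ProjAlg.Main

namespace Pool.Agent.Results.MP_71be7b_lc.Continuum

open Pool.Agent.Helper63.ProjAlg

/-- For every positive `k`, the number of isomorphism classes is the continuum. -/
theorem result : ∀ k : ℕ, 0 < k → numClasses k = Cardinal.continuum := numClasses_eq

end Pool.Agent.Results.MP_71be7b_lc.Continuum
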